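import Pool.Agent.H.MP_59d57e_an.A

namespace Pool.Agent.Results.MP_59d57e_an.No

open MvPolynomial Finset ComplexConjugate Pool.Agent.H.MP_59d57e_an

noncomputable abbrev Ω := Metric.ball (0 : EuclideanSpace ℂ (Fin 2)) 1

noncomputable abbrev K := EuclideanSpace ℂ (Fin 3)

noncomputable def ev {A : Type} [Ring A] [Algebra ℂ A] (T : Fin 2 → A)
    (q : MvPolynomial (Fin 2) ℂ) : A :=
  ∑ α ∈ q.support, coeff α q • (T 0 ^ α 0 * T 1 ^ α 1)

abbrev Mat (p m : ℕ) := Matrix (Fin p) (Fin m) (MvPolynomial (Fin 2) ℂ)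

section
variable {E : Type} [NormedAddCommGroup E] [InnerProductSpace ℂ E] (T : Fin 2 → E →L[ℂ] E)

def OpLe {p m : ℕ} (P : Mat p m) (c : ℝ) : Prop :=
  ∀ x : Fin m → E, ∑ i, ‖∑ j, ev T (P i j) (x j)‖ ^ 2 ≤ c ^ 2 * ∑ j, ‖x j‖ ^ 2

def Comm : Prop := ∀ x, T 0 (T 1 x) = T 1 (T 0 x)

end

noncomputable def val (q : MvPolynomial (Fin 2) ℂ) (z : Ω) : ℂ := eval z.1 q

noncomputable def szego (z w : Ω) : ℂ :=
  ((1 - (z.1 0 * conj (w.1 0) + z.1 1 * conj (w.1 1))) ^ 2)⁻¹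

section
variable (H : Type) [NormedAddCommGroup H] [InnerProductSpace ℂ H] [RKHS ℂ H Ω ℂ]

def MultLe {p m : ℕ} (P : Mat p m) (c : ℝ) : Prop :=
  ∀ (f : Fin m → H) (g : Fin p → H), (∀ i (z : Ω), g i z = ∑ j, val (P i j) z * f j z) →
    ∑ i, ‖g i‖ ^ 2 ≤ c ^ 2 * ∑ j, ‖f j‖ ^ 2

def PolyMult : Prop := ∀ (q : MvPolynomial (Fin 2) ℂ) (f : H), ∃ g : H, ∀ z : Ω, g z = val q z * f z

def HasKernel [CompleteSpace H] : Prop := ∀ z w : Ω, RKHS.kernel H z w 1 = szego z w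

end

noncomputable def TT (i : Fin 2) : K →L[ℂ] K :=
  (EuclideanSpace.proj (𝕜 := ℂ) 2).smulRight (EuclideanSpace.single i.castSucc 1)

lemma TT_mul (i j : Fin 2) : TT i * TT j = 0 := by
  ext x k
  fin_cases j <;> simp [TT]

lemma ev_TT (q : MvPolynomial (Fin 2) ℂ) : ev TT q = coeff 0 q • 1 +
    (coeff (Finsupp.single 0 1) q • TT 0 + coeff (Finsupp.single 1 1) q • TT 1) := by
  have s : ∀ i n, TT i ^ (n + 2) = 0 := fun i n => by rw [pow_add, sq, TT_mul, mul_zero]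
  rw [ev, ← sum_subset_zero_on_sdiff (s₁ := q.support ∩
    {0, Finsupp.single 0 1, Finsupp.single 1 1}) inter_subset_left ?_ fun _ _ => rfl,
    sum_subset inter_subset_right, sum_insert, sum_pair]
  · simp
  · simp [Finsupp.single_eq_single_iff]
  · simp [(Finsupp.single_ne_zero.2 one_ne_zero).symm]
  · intro α h1 h2
    rw [notMem_support_iff.1 fun h => h2 (mem_inter.2 ⟨h, h1⟩)]
    ext
    simp
  · intro α h
    simp only [mem_sdiff, mem_inter, mem_insert, mem_singleton, Finsupp.ext_iff,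
      Fin.forall_fin_two] at h
    have := h.2
    simp [h.1] at this
    rcases ha : α 0 with _ | _ | a <;> rcases hb : α 1 with _ | _ | b <;>
      simp_all [TT_mul] <;> ext <;> simp

theorem result : ∃ (H : Type) (_ : NormedAddCommGroup H) (_ : InnerProductSpace ℂ H)
    (_ : CompleteSpace H) (_ : RKHS ℂ H Ω ℂ),
    HasKernel H ∧ PolyMult H ∧ ∃ T : Fin 2 → K →L[ℂ] K, Comm T ∧
      (∀ (m : ℕ) (P : Mat 1 m) (c : ℝ), MultLe H P c → OpLe T P c) ∧
      ∃ P : Mat 2 2, MultLe H P 1 ∧ ¬OpLe T P 1 := by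
  refine ⟨HH, inferInstance, inferInstance, inferInstance, inferInstance, ker, mult, TT,
    fun x => DFunLike.congr_fun ((TT_mul 0 1).trans (TT_mul 1 0).symm) x, fun m P c h x => ?_, !![X 0, 0; X 1, 0],
    fun f g h => ?_, fun h => ?_⟩
  · have b := lower' (P 0) (lower (P 0) (sq_nonneg c) fun f g hg => by
      simpa using h f (fun _ => g) fun i z => by rw [Subsingleton.elim i 0]; exact hg z)
    rw [Fin.sum_univ_one]
    obtain ⟨y, hy⟩ : ∃ y, y = ∑ j, ev TT (P 0 j) (x j) := ⟨_, rfl⟩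
    obtain ⟨n, hn⟩ : ∃ n : ℝ, n = √(‖y 0‖ ^ 2 + ‖y 1‖ ^ 2) := ⟨_, rfl⟩
    have n2 : n ^ 2 = ‖y 0‖ ^ 2 + ‖y 1‖ ^ 2 := by rw [hn, Real.sq_sqrt (by positivity)]
    obtain ⟨v, hv⟩ : ∃ v : Fin 2 → ℂ, v = fun i => conj (y i.castSucc) / n := ⟨_, rfl⟩
    have v1 : ‖v 0‖ ^ 2 + ‖v 1‖ ^ 2 ≤ 1 := by
      simp only [hv, norm_div, div_pow, ← add_div, Complex.norm_conj, Complex.norm_real,
        Real.norm_eq_abs, sq_abs]
      exact div_le_one_of_le₀ n2.ge (sq_nonneg _)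
    have v2 : v 0 * y 0 + v 1 * y 1 = n := by
      simp only [hv, div_mul_eq_mul_div, ← add_div]
      erw [Complex.conj_mul', Complex.conj_mul']
      norm_cast
      erw [← n2]
      rw [sq, mul_self_div_self]
    choose r r1 r2 r3 using fun j => slice v (P 0 j)
    have := bessel (G := fun l => ∑ j, (coeff 0 (P 0 j) * (v 0 * x j 0 + v 1 * x j 1) +
      r j l * (x j 2 + (v 0 * x j 0 + v 1 * x j 1) * l))) (by fun_prop) (y 2) (fun j => x j 2)
      (fun j => v 0 * x j 0 + v 1 * x j 1) (c ^ 2) fun l hl => by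
        have e : y 2 + l * ∑ j, (coeff 0 (P 0 j) * (v 0 * x j 0 + v 1 * x j 1) +
            r j l * (x j 2 + (v 0 * x j 0 + v 1 * x j 1) * l)) =
            ∑ j, eval (l • v) (P 0 j) * (x j 2 + (v 0 * x j 0 + v 1 * x j 1) * l) := by
          simp only [hy, ev_TT, r2, mul_sum, WithLp.ofLp_sum, Finset.sum_apply, ← sum_add_distrib]
          exact sum_congr rfl fun j _ => by simp [TT]; ring
        rw [e]
        refine (pow_le_pow_left₀ (norm_nonneg _) ((norm_sum_le _ _).trans_eq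
          (sum_congr rfl fun j _ => norm_mul _ _)) 2).trans ((sum_mul_sq_le_sq_mul_sq _ _ _).trans
            (mul_le_mul_of_nonneg_right (b _ ?_) (by positivity)))
        simpa [hl] using v1
    have e : ∑ j, (coeff 0 (P 0 j) * (v 0 * x j 0 + v 1 * x j 1) +
        r j 0 * (x j 2 + (v 0 * x j 0 + v 1 * x j 1) * 0)) = n := by
      simp only [← v2, hy, ev_TT, r3, mul_sum, WithLp.ofLp_sum, Finset.sum_apply, ← sum_add_distrib]
      exact sum_congr rfl fun j _ => by simp [TT]; ring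
    rw [e, Complex.norm_real, Real.norm_eq_abs, sq_abs, n2] at this
    rw [← hy, EuclideanSpace.norm_sq_eq, Fin.sum_univ_three, add_comm]
    refine this.trans (mul_le_mul_of_nonneg_left (sum_le_sum fun j _ => ?_) (sq_nonneg c))
    rw [EuclideanSpace.norm_sq_eq, Fin.sum_univ_three, add_comm]
    gcongr
    refine (pow_le_pow_left₀ (norm_nonneg _) (norm_add_le _ _) 2).trans ?_
    rw [norm_mul, norm_mul]
    nlinarith [sq_nonneg (‖v 0‖ * ‖x j 1‖ - ‖v 1‖ * ‖x j 0‖), mul_le_mul_of_nonneg_right v1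
      (add_nonneg (sq_nonneg ‖x j 0‖) (sq_nonneg ‖x j 1‖))]
  · obtain ⟨k, hk, b⟩ := col (f 0)
    have : g = k := funext fun i => RKHS.ext fun z => by
      rw [h, hk]
      fin_cases i <;> simp [val]
    rw [this, Fin.sum_univ_two, Fin.sum_univ_two]
    linarith [sq_nonneg ‖f 1‖]
  · have := h ![EuclideanSpace.single 2 1, 0]
    simp [ev_TT, TT, coeff_X, Finsupp.single_eq_single_iff] at this
    norm_num at this

end Pool.Agent.Results.MP_59d57e_an.No
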